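import Mathlib

set_option autoImplicit false

namespace Pool.Agent.Results.MP_1409ae_co.No

/-- a bounded tolerance representation of the order lt: a bounded bitolerance representation
whose left and right tolerances agree -/
structure IsRep {V : Type} (lt : V → V → Prop) (L R p q : V → ℝ) : Prop where
  left : ∀ v, L v < p v ∧ p v ≤ R v
  right : ∀ v, L v ≤ q v ∧ q v < R v
  rep : ∀ x y, x ≠ y → (lt x y ↔ R x < p y ∧ q x < L y)
  tol : ∀ v, p v - L v = R v - q v

/-- no interval is properly contained in another one -/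
def Proper {V : Type} (L R : V → ℝ) : Prop :=
  ∀ x y, ¬ Set.Icc (L x) (R x) ⊂ Set.Icc (L y) (R y)

/-- all intervals have the same length -/
def UnitLen {V : Type} (L R : V → ℝ) : Prop := ∀ x y, R x - L x = R y - L y

def a : Fin 17 → ℤ := ![0, 1100, 6550, 6551, 6625, 6649, 6650, 6713, 6720, 6750, 13040, 13050,
    13670, 14250, 14350, 14545, 20842]

def b : Fin 17 → ℤ := ![8000, 9100, 14550, 14560, 15297, 15540, 15550, 16183, 16250, 16550, 22549,
    22550, 22602, 22650, 22658, 22675, 30842]

def t : Fin 17 → ℤ := ![3800, 3800, 1505, 3800, 905, 2475, 1325, 3900, 1995, 2325, 1700, 3800,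
    881, 3800, 2195, 1000, 3900]

def lt (x y : Fin 17) : Prop := b x < a y + t y ∧ b x - t x < a y

instance : DecidableRel lt := fun _ _ => by unfold lt; infer_instance

theorem key (c s : Fin 17 → ℝ)
    (hl : ∀ i j, lt i j → c i + s i < c j ∧ c i + s j < c j)
    (hi : ∀ i j, i ≠ j → ¬ lt i j → c j ≤ c i + s i ∨ c j ≤ c i + s j) : False := by
  have c0_2 := hl 0 2 (by decide)
  have c0_5 := hl 0 5 (by decide)
  have c1_3 := hl 1 3 (by decide)
  have c1_5 := hl 1 5 (by decide)
  have c2_11 := hl 2 11 (by decide)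
  have c2_12 := hl 2 12 (by decide)
  have c3_10 := hl 3 10 (by decide)
  have c3_15 := hl 3 15 (by decide)
  have c4_15 := hl 4 15 (by decide)
  have c5_15 := hl 5 15 (by decide)
  have c6_13 := hl 6 13 (by decide)
  have c6_14 := hl 6 14 (by decide)
  have c7_11 := hl 7 11 (by decide)
  have c8_14 := hl 8 14 (by decide)
  have c9_13 := hl 9 13 (by decide)
  have c11_16 := hl 11 16 (by decide)
  have c13_16 := hl 13 16 (by decide)
  have c14_16 := hl 14 16 (by decide)
  have f2_10 : c 10 ≤ c 2 + s 2 := by
    by_contra hn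
    rw [not_le] at hn
    have g := (hi 2 10 (by decide) (by decide)).resolve_left hn.not_ge
    rcases hi 1 2 (by decide) (by decide) with g1_2 | g1_2
    · linarith only [c1_3.1, c3_10.2, g, g1_2]
    · rcases hi 3 12 (by decide) (by decide) with g3_12 | g3_12
      · linarith only [c1_3.2, c2_12.1, c3_10.2, g, g1_2, g3_12]
      · linarith only [c2_12.2, c3_10.2, g, g3_12]
  have f3_12 : c 12 ≤ c 3 + s 12 := by
    by_contra hn
    rw [not_le] at hn
    have g := (hi 3 12 (by decide) (by decide)).resolve_right hn.not_ge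
    linarith only [c2_12.1, c3_10.1, f2_10, g]
  have f4_11 : c 11 ≤ c 4 + s 4 := by
    by_contra hn
    rw [not_le] at hn
    have g := (hi 4 11 (by decide) (by decide)).resolve_left hn.not_ge
    rcases hi 0 4 (by decide) (by decide) with g0_4 | g0_4
    · linarith only [c0_2.1, c2_11.2, g, g0_4]
    · rcases hi 10 16 (by decide) (by decide) with g10_16 | g10_16
      · linarith only [c0_2.2, c2_11.1, c2_12.2, c3_10.2, c11_16.1, f2_10, f3_12, hn, g, g0_4,
            g10_16]
      · linarith only [c2_11.1, c11_16.2, f2_10, g10_16]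
  have f4_13 : c 13 ≤ c 4 + s 4 := by
    by_contra hn
    rw [not_le] at hn
    have g := (hi 4 13 (by decide) (by decide)).resolve_left hn.not_ge
    rcases hi 6 15 (by decide) (by decide) with g6_15 | g6_15
    · rcases hi 15 16 (by decide) (by decide) with g15_16 | g15_16
      · linarith only [c4_15.2, c6_13.1, c13_16.1, g, g6_15, g15_16]
      · linarith only [c6_13.1, c13_16.2, g6_15, g15_16]
    · linarith only [c4_15.2, c6_13.2, g, g6_15]
  have f4_14 : c 14 ≤ c 4 + s 4 := by
    by_contra hn
    rw [not_le] at hn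
    have g := (hi 4 14 (by decide) (by decide)).resolve_left hn.not_ge
    rcases hi 6 15 (by decide) (by decide) with g6_15 | g6_15
    · linarith only [c4_15.1, c6_13.1, f4_13, g6_15]
    · linarith only [c4_15.2, c6_14.2, g, g6_15]
  have f5_10 : c 10 ≤ c 5 + s 5 := by
    by_contra hn
    rw [not_le] at hn
    have g := (hi 5 10 (by decide) (by decide)).resolve_left hn.not_ge
    rcases hi 7 15 (by decide) (by decide) with g7_15 | g7_15
    · linarith only [c4_15.1, c7_11.1, f4_11, g7_15]
    · rcases hi 5 11 (by decide) (by decide) with g5_11 | g5_11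
      · linarith only [c2_11.1, f2_10, hn, g5_11]
      · linarith only [c5_15.2, c7_11.2, g7_15, g5_11]
  have f6_12 : c 12 ≤ c 6 + s 12 := by
    by_contra hn
    rw [not_le] at hn
    have g := (hi 6 12 (by decide) (by decide)).resolve_right hn.not_ge
    rcases hi 6 15 (by decide) (by decide) with g6_15 | g6_15
    · linarith only [c4_15.1, c6_13.1, f4_13, g6_15]
    · linarith only [c3_15.2, f3_12, hn, g6_15]
  have f6_15 : c 15 ≤ c 6 + s 15 := by
    by_contra hn
    rw [not_le] at hn
    have g := (hi 6 15 (by decide) (by decide)).resolve_right hn.not_ge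
    linarith only [c4_15.1, c6_13.1, f4_13, g]
  have f8_15 : c 15 ≤ c 8 + s 15 := by
    by_contra hn
    rw [not_le] at hn
    have g := (hi 8 15 (by decide) (by decide)).resolve_right hn.not_ge
    linarith only [c4_15.1, c8_14.1, f4_14, g]
  have f9_15 : c 15 ≤ c 9 + s 15 := by
    by_contra hn
    rw [not_le] at hn
    have g := (hi 9 15 (by decide) (by decide)).resolve_right hn.not_ge
    linarith only [c4_15.1, c9_13.1, f4_13, g]
  have f10_16 : c 16 ≤ c 10 + s 10 := by
    by_contra hn
    rw [not_le] at hn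
    have g := (hi 10 16 (by decide) (by decide)).resolve_left hn.not_ge
    linarith only [c2_11.1, c11_16.2, f2_10, g]
  have f0_6 : c 6 ≤ c 0 + s 6 := by
    by_contra hn
    rw [not_le] at hn
    have g := (hi 0 6 (by decide) (by decide)).resolve_right hn.not_ge
    linarith only [c0_2.1, c2_12.2, f6_12, g]
  have f1_8 : c 8 ≤ c 1 + s 8 := by
    by_contra hn
    rw [not_le] at hn
    have g := (hi 1 8 (by decide) (by decide)).resolve_right hn.not_ge
    linarith only [c1_3.1, c3_15.2, f8_15, g]
  have f1_9 : c 9 ≤ c 1 + s 9 := by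
    by_contra hn
    rw [not_le] at hn
    have g := (hi 1 9 (by decide) (by decide)).resolve_right hn.not_ge
    linarith only [c1_3.1, c3_15.2, f9_15, g]
  have f8_13 : c 13 ≤ c 8 + s 8 := by
    by_contra hn
    rw [not_le] at hn
    have g := (hi 8 13 (by decide) (by decide)).resolve_left hn.not_ge
    linarith only [c0_2.2, c0_5.2, c1_5.2, c2_12.2, c3_10.2, c5_15.2, c6_13.1, c13_16.1, f2_10,
        f3_12, f5_10, f6_15, f10_16, f0_6, f1_8, hn, g]
  have f9_14 : c 14 ≤ c 9 + s 9 := by
    by_contra hn
    rw [not_le] at hn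
    have g := (hi 9 14 (by decide) (by decide)).resolve_left hn.not_ge
    linarith only [c0_2.2, c0_5.2, c1_5.2, c2_12.2, c3_10.2, c5_15.2, c6_13.1, c8_14.1, c9_13.1,
        c14_16.1, f2_10, f3_12, f5_10, f6_15, f10_16, f0_6, f1_9, f8_13, g]
  linarith only [c8_14.1, c9_13.1, f8_13, f9_14]

theorem result : ∃ (V : Type) (_ : Finite V) (lt : V → V → Prop), IsStrictOrder V lt ∧
    (∃ L R p q, IsRep lt L R p q ∧ (∀ v, p v ≤ q v) ∧ Proper L R) ∧
    ¬ ∃ L R p q, IsRep lt L R p q ∧ UnitLen L R := by
  have ir : ∀ x, ¬ lt x x := by decide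
  have tr : ∀ x y z, lt x y → lt y z → lt x z := by decide +kernel
  have h : ∀ v, 0 < t v ∧ a v + t v ≤ b v - t v := by decide
  have h' : ∀ v, (0 : ℝ) < t v ∧ (a v : ℝ) + t v ≤ b v - t v := fun v => by
    exact_mod_cast h v
  refine ⟨Fin 17, inferInstance, lt, { irrefl := ir, trans := tr },
    ⟨fun v => a v, fun v => b v, fun v => a v + t v, fun v => b v - t v, ?_,
      fun v => (h' v).2, ?_⟩, ?_⟩
  · refine ⟨fun v => ?_, fun v => ?_, fun x y _ => ?_, fun v => by ring⟩
    · constructor <;> linarith [(h' v).1, (h' v).2]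
    · constructor <;> linarith [(h' v).1, (h' v).2]
    · unfold lt
      norm_cast
  · intro x y hxy
    have h : ∀ x y, a y ≤ a x → b x ≤ b y → x = y := by decide +kernel
    have h0 : ∀ x, a x ≤ b x := by decide
    have := (Set.Icc_subset_Icc_iff (Int.cast_le.2 (h0 x))).1 hxy.1
    obtain rfl := h x y (Int.cast_le.1 this.1) (Int.cast_le.1 this.2)
    exact hxy.2 hxy.1
  · rintro ⟨L, R, p, q, h, hu⟩
    refine key L (fun v => q v - L v) (fun i j hij => ?_) (fun i j hne hij => ?_)
    · have := (h.rep i j (by rintro rfl; exact ir _ hij)).1 hij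
      constructor <;> linarith [this.1, this.2, h.tol j, hu i j]
    · by_contra hc
      rw [not_or, not_le, not_le] at hc
      exact hij ((h.rep i j hne).2 ⟨by linarith [hc.2, h.tol j, hu i j], by linarith [hc.1]⟩)

end Pool.Agent.Results.MP_1409ae_co.No
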